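import Pool.Agent.R419.ST.Main
import Pool.Agent.R419.KG.Fin

/-!
# Stoll's conjecture and finite descent for closed subvarieties of products of cubic twists

Let `K = ℚ(√-3)` and let `E_D` be the curve `y² + D y = x³` (all the cubic twists of `y² + y = x³`).  Let `D`
run over ALL cube-free `D ≡ 1 mod 3` of `𝓞 K` with norm `≡ 7 mod 9`, ordered by the norm.

Theorem.  (1) The proportion of the `D` for which `E_D(K)` is finite and the 3-primary part of
`Ш(E_D/K)` is trivial tends exactly to `∏_{i ≥ 0} (1 - 3 ^ (-2 i - 1)) = 0.6390…`.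
(2) Let `D_1, …, D_n` be any such `D` and let `X` be any closed subset of `E_{D_1} × … × E_{D_n}` defined over
`K`, for instance the image of a curve of genus at least two.  If `v` is the place of `K` above three
and if the point `P` of `X(K_v)` is the component at `v` of a point which survives all the descents by
`3 ^ k`-coverings, then `P` is a `K`-rational point of `X`.  So this is true for the components at `v`
of all the points in the Brauer-Manin set of `X`.
(3) If `X(K)` is empty then for some `k` the `3 ^ k`-Selmer set of `X` over `K` is empty.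

The proof.  A `3 ^ k`-covering with points over all completions comes from a rational point `y`, as the
3-primary part of the Tate-Shafarevich group is trivial; so a point `P` over `K_v` which lifts to it is
`y + 3 ^ k z`.  As `E_D(K)` is finite we can take `y` independent of `k` (pigeonhole, and compactness for
(3)), and `P - y` is infinitely divisible by three, hence of order prime to three.  An explicit
computation on `y² = x³ + D²/4` over `K_v` shows that the points of order prime to three have order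
at most two, and that there are none but the origin unless `D ≡ -2 mod 9`, in which case the norm of
`D` is `4` modulo `9`.
-/

set_option autoImplicit false

open IsDedekindDomain NumberField WeierstrassCurve MvPolynomial Pool.Agent.TH954

open scoped Classical

namespace Pool.Agent.Results.MP_308fa9_nt.CubicTwistProducts

section descent

variable {K : Type} [Field K] {n : ℕ}

/-- The `L`-rational points of the closed subset `X` of `E_1 × … × E_n` defined by the equations in
`S` in the homogeneous coordinates of the `n` points. -/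
def LocalPoints (E : Fin n → WeierstrassCurve K) (S : Set (MvPolynomial (Fin n × Fin 3) K))
    (L : Type) [Field L] [Algebra K L] : Set ((i : Fin n) → ((E i).baseChange L).toAffine.Point) :=
  {P | OnX S (fun i => crd (P i))}

/-- The `K`-rational points of `X`. -/
def RationalPoints (E : Fin n → WeierstrassCurve K) (S : Set (MvPolynomial (Fin n × Fin 3) K)) :
    Set ((i : Fin n) → (E i).toAffine.Point) :=
  {y | ∀ f ∈ S, eval (fun p => crd (y p.1) p.2) f = 0}

/-- The `L`-rational point `P` of `E_1 × … × E_n` lifts to an `L`-rational point of the `N`-covering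
given by the cocycles `ξ i`: there are points `Q i` over the algebraic closure with `N • Q i = P i`
on which the Galois group of `L` acts by translation by the `ξ i`. -/
def Lifts (E : Fin n → WeierstrassCurve K) (N : ℕ)
    (ξ : (i : Fin n) → (AlgebraicClosure K ≃ₐ[K] AlgebraicClosure K) → AlgPt (E i) K)
    (L : Type) [Field L] [Algebra K L] (P : (i : Fin n) → ((E i).baseChange L).toAffine.Point) :
    Prop :=
  ∃ (ι : AlgebraicClosure K →ₐ[K] AlgebraicClosure L) (Q : (i : Fin n) → AlgPt (E i) L),
    (∀ i, N • Q i = incl (E i) L (P i)) ∧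
      ∀ i σ τ, Compat ι σ τ → pm (E i) ι (ξ i τ) = act (E i) σ (Q i) - Q i

/-- The `N`-Selmer set of `X`: the `N`-coverings of `E_1 × … × E_n` over `K` whose pull-backs to `X`
have points over all the completions of `K`. -/
def SelmerSet [NumberField K] (E : Fin n → WeierstrassCurve K)
    (S : Set (MvPolynomial (Fin n × Fin 3) K)) (N : ℕ) :
    Set ((i : Fin n) → (AlgebraicClosure K ≃ₐ[K] AlgebraicClosure K) → AlgPt (E i) K) :=
  {ξ | (∀ i, IsCocycle (E i) (ξ i)) ∧ (∀ i σ, N • ξ i σ = 0) ∧
    (∀ v : HeightOneSpectrum (𝓞 K), ∃ P ∈ LocalPoints E S (v.adicCompletion K),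
      Lifts E N ξ (v.adicCompletion K) P) ∧
    ∀ w : InfinitePlace K, ∃ P ∈ LocalPoints E S w.Completion, Lifts E N ξ w.Completion P}

end descent

section family

variable {K : Type} [Field K]

/-- The curve `y² + D y = x³`. -/
def curve (D : K) : WeierstrassCurve K := ⟨0, 0, D, 0, 0⟩

variable [NumberField K]

/-- `D` is cube-free, congruent to `1` modulo `3` and its norm is congruent to `7` modulo `9`. -/
def InClass (D : 𝓞 K) : Prop :=
  (3 : 𝓞 K) ∣ D - 1 ∧ (∀ x : 𝓞 K, x ^ 3 ∣ D → IsUnit x) ∧ (9 : ℤ) ∣ Algebra.norm ℤ D - 7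

/-- `E_D(K)` is finite and the 3-primary part of the Tate-Shafarevich group of `E_D` over `K` is
trivial. -/
def FiniteAndTrivial (D : 𝓞 K) : Prop :=
  Finite (curve (D : K)).toAffine.Point ∧
    ∀ (m : ℕ) (x : Pool.Agent.TH841.NF.D.Sha (curve (D : K))), 3 ^ m • x = 0 → x = 0

end family

section

variable {K : Type} [Field K] {n : ℕ}

lemma sel_iff [NumberField K] (E : Fin n → WeierstrassCurve K)
    (S : Set (MvPolynomial (Fin n × Fin 3) K)) (N : ℕ) :
    SelmerSet E S N = Pool.Agent.R419.ST.SelSet E S N := by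
  ext ξ
  have key : ∀ (L : Type) [Field L] [Algebra K L],
      (∃ P ∈ LocalPoints E S L, Lifts E N ξ L P) ↔ Pool.Agent.R419.ST.CovPt E S N ξ L := by
    intro L _ _
    constructor
    · rintro ⟨P, hP, ι, Q, h1, h2⟩
      exact ⟨ι, P, Q, hP, h1, h2⟩
    · rintro ⟨ι, P, Q, hP, h1, h2⟩
      exact ⟨P, hP, ι, Q, h1, h2⟩
  constructor
  · rintro ⟨h1, h2, h3, h4⟩
    exact ⟨h1, h2, fun v => (key _).1 (h3 v), fun w => (key _).1 (h4 w)⟩
  · rintro ⟨h1, h2, h3, h4⟩
    exact ⟨h1, h2, fun v => (key _).2 (h3 v), fun w => (key _).2 (h4 w)⟩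

/-- points of `X` over a completion with rational coordinates are rational points of `X` -/
lemma rational_of (E : Fin n → WeierstrassCurve K) (S : Set (MvPolynomial (Fin n × Fin 3) K))
    (L : Type) [Field L] [Algebra K L] (P : (i : Fin n) → ((E i).baseChange L).toAffine.Point)
    (hP : P ∈ LocalPoints E S L) (y : (i : Fin n) → (E i).toAffine.Point)
    (h : ∀ i j, crd (P i) j = algebraMap K L (crd (y i) j)) : y ∈ RationalPoints E S := by
  intro f hf
  have h1 := hP f hf
  have e : (fun p : Fin n × Fin 3 => crd (P p.1) p.2) =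
      fun p => algebraMap K L (crd (y p.1) p.2) := by
    funext p
    exact h p.1 p.2
  rw [aeval_def, e] at h1
  have h2 : eval₂ (algebraMap K L) (fun p => algebraMap K L (crd (y p.1) p.2)) f =
      algebraMap K L (eval (fun p => crd (y p.1) p.2) f) :=
    (eval₂_comp_left (algebraMap K L) (RingHom.id K) _ f).symm
  rw [h2, map_eq_zero] at h1
  exact h1

end

theorem result (K : Type) [Field K] [NumberField K] [IsCyclotomicExtension {3} ℚ K] :
    ((∃ c : ℝ, 0 < c ∧ ∃ X₀ : ℕ, ∀ X : ℕ, X₀ ≤ X →
        c * X ≤ ({D : 𝓞 K | Algebra.norm ℤ D ≤ X ∧ InClass D}.ncard : ℝ)) ∧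
      Filter.Tendsto (fun X : ℕ =>
        ({D : 𝓞 K | Algebra.norm ℤ D ≤ X ∧ InClass D ∧ FiniteAndTrivial D}.ncard : ℝ) /
          ({D : 𝓞 K | Algebra.norm ℤ D ≤ X ∧ InClass D}.ncard : ℝ)) Filter.atTop
        (nhds (∏' i : ℕ, (1 - (1 / 3 : ℝ) ^ (2 * i + 1)))) ∧
      (0.639 : ℝ) < ∏' i : ℕ, (1 - (1 / 3 : ℝ) ^ (2 * i + 1)) ∧
      ∏' i : ℕ, (1 - (1 / 3 : ℝ) ^ (2 * i + 1)) < 0.6391) ∧
    ∀ (n : ℕ) (D : Fin n → 𝓞 K), (∀ i, InClass (D i) ∧ FiniteAndTrivial (D i)) →
      ∀ S : Set (MvPolynomial (Fin n × Fin 3) K), (∀ f ∈ S, ∃ d, MultiHom d f) →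
        (∀ v : HeightOneSpectrum (𝓞 K), ((3 : ℕ) : 𝓞 K) ∈ v.asIdeal →
          ∀ P ∈ LocalPoints (fun i => curve (D i : K)) S (v.adicCompletion K),
            (∀ k : ℕ, ∃ ξ ∈ SelmerSet (fun i => curve (D i : K)) S (3 ^ k),
              Lifts (fun i => curve (D i : K)) (3 ^ k) ξ (v.adicCompletion K) P) →
            ∃ y ∈ RationalPoints (fun i => curve (D i : K)) S,
              ∀ i j, crd (P i) j = algebraMap K (v.adicCompletion K) (crd (y i) j)) ∧
        (RationalPoints (fun i => curve (D i : K)) S = ∅ →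
          ∃ k : ℕ, SelmerSet (fun i => curve (D i : K)) S (3 ^ k) = ∅) := by
  refine ⟨Pool.Agent.R419.KG.final K, fun n D hD S hS => ?_⟩
  have h3 : ∀ i, (3 : 𝓞 K) ∣ D i - 1 := fun i => (hD i).1.1
  have h0 : ∀ i, D i ≠ 0 := fun i => Pool.Agent.R419.KG.ne_zero7 (hD i).1
  have h9 : ∀ i, ¬ (9 : 𝓞 K) ∣ D i + 2 := fun i => Pool.Agent.R419.KG.not_nine (hD i).1
  have htri : ∀ i, Pool.Agent.Y696.CTK.Tri (D i) := fun i => (hD i).2
  refine ⟨fun v hv P hP h => ?_, fun hX => ?_⟩
  · obtain ⟨y, hy⟩ := Pool.Agent.R419.ST.thmV1 h3 h0 htri S v hv P (fun k => by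
      obtain ⟨ξ, hξ, hc⟩ := h k
      exact ⟨ξ, by rw [sel_iff] at hξ; exact hξ, hc⟩)
    have hc : ∀ i j, crd (P i) j = algebraMap K (v.adicCompletion K)
        (crd (y i : (curve (D i : K)).toAffine.Point) j) := by
      intro i j
      have e := (hy i).2 (h9 i)
      have e1 : crd (P i) j = crd (pm (Pool.Agent.Y696.CTK.ED (D i : K))
        (Algebra.ofId K (v.adicCompletion K)) (y i)) j :=
        congrArg (fun T : ((Pool.Agent.Y696.CTK.ED (D i : K)).baseChange
          (v.adicCompletion K)).toAffine.Point => crd T j) e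
      rw [e1]
      exact Pool.Agent.R419.ST.crd_pm (E := Pool.Agent.Y696.CTK.ED (D i : K))
        (Algebra.ofId K (v.adicCompletion K)) (y i) j
    exact ⟨y, rational_of _ S _ P hP y hc, hc⟩
  · obtain ⟨l, η, hl, hη, hη2, -⟩ := Pool.Agent.R419.ST.ex_lam (K := K)
    have hp : (Ideal.span {l} : Ideal (𝓞 K)).IsPrime :=
      (Ideal.span_singleton_prime hl.ne_zero).2 hl
    have hb : (Ideal.span {l} : Ideal (𝓞 K)) ≠ ⊥ := by
      rw [Ne, Ideal.span_singleton_eq_bot]
      exact hl.ne_zero
    let v : HeightOneSpectrum (𝓞 K) := ⟨Ideal.span {l}, hp, hb⟩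
    have hv : ((3 : ℕ) : 𝓞 K) ∈ v.asIdeal := by
      show ((3 : ℕ) : 𝓞 K) ∈ Ideal.span {l}
      rw [Ideal.mem_span_singleton]
      refine ⟨-(η - 1) * η ^ 2, ?_⟩
      rw [hη]
      push_cast
      linear_combination (η ^ 2 - 3 * η + 3) * hη2
    obtain ⟨k, hk⟩ := Pool.Agent.R419.ST.thmV2 h3 h0 htri S hS v hv (fun P hP hex => by
      obtain ⟨y, hy⟩ := hex
      have hc : ∀ i j, crd (P i) j = algebraMap K (v.adicCompletion K)
          (crd (y i : (curve (D i : K)).toAffine.Point) j) := by
        intro i j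
        have e := (hy i).2 (h9 i)
        have e1 : crd (P i) j = crd (pm (Pool.Agent.Y696.CTK.ED (D i : K))
          (Algebra.ofId K (v.adicCompletion K)) (y i)) j :=
          congrArg (fun T : ((Pool.Agent.Y696.CTK.ED (D i : K)).baseChange
            (v.adicCompletion K)).toAffine.Point => crd T j) e
        rw [e1]
        exact Pool.Agent.R419.ST.crd_pm (E := Pool.Agent.Y696.CTK.ED (D i : K))
          (Algebra.ofId K (v.adicCompletion K)) (y i) j
      have h5 := rational_of (fun i => curve (D i : K)) S _ P hP y hc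
      rw [hX] at h5
      exact h5)
    exact ⟨k, by rw [sel_iff]; exact hk⟩

end Pool.Agent.Results.MP_308fa9_nt.CubicTwistProducts
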