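import Pool.Agent.R925.FD.Two
import Pool.Agent.R925.FD.BM

/-!
# The Brauer-Manin sets of almost all twists of a cyclic covering of a fixed curve

Let `b y ^ 2 = ∏ k, G k (z, w)` be a hyperelliptic curve `D` over `ℚ`, where the `G k` are the
homogenisations of polynomials `g k` with integral coefficients, of even degrees, pairwise coprime.
Let `h` be a polynomial with integral coefficients, coprime to the `g k`, and `H` its homogenisation.
For a squarefree integer `a` and `m ≥ 2`, `m ∣ deg h`, consider the curve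

  `C a : b y ^ 2 = ∏ k, G k (z, w)`, `a x ^ m = H (z, w)`.

It is a cyclic covering of degree `m` of `D`, and for different `a` these coverings are twists of each
other. As the degrees of the `G k` are even and the `G k` are pairwise coprime, the classes of the
quaternion algebras `(G k, e)`, `e` a nonzero integer, are unramified on `D`, so they define elements of
the Brauer group of (a smooth projective model of) `C a`. We call an adelic point of `C a` orthogonal
if the sum of the local invariants of each of these classes is zero.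

Call a family `δ k` of nonzero rational numbers with `∏ δ k = b t ^ 2` persistent if every
automorphism `σ` of the field of algebraic numbers fixes a zero `β` of `h` and numbers `y k` with
`g k (β) = δ k * y k ^ 2` (all `k`). We prove that for all squarefree `a`, `|a| ≤ X`, with at most
`C X (log X) ^ (-κ)` exceptions, `κ > 0`, all the orthogonal adelic points of the curves `C a` (all
`m`) have a persistent class: there are squarefree integers `n k`, a persistent family, such that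
`n k` times the value of `G k` is a square at all places.

So if there is no persistent family, the orthogonal adelic points form the empty set for almost all
`a`: then `C a` has no rational points and they satisfy Stoll's conjecture, without assumptions on the
Jacobians and although the curves can have points everywhere locally. This happens for
`D : y² = (z² + 51) (z² - 1)` and `h = (z² + 1) (z² - 17) (z² + 17)`: all the curves `C a`,
`m ∈ {2, 3, 6}`, have adelic points, but for almost all squarefree `a` no adelic point is orthogonal.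
The curve `D` has genus one and rational points like `(1, 0)` and `(11 / 2, 195 / 4)`; for `m = 3` the
curve `C a` has genus 13.
-/

set_option autoImplicit false

namespace Pool.Agent.Results.MP_308fa9_nt.EmptySetsOfTwistedCoverings

open Polynomial Pool.Agent.R925.FD
open Pool.Agent.W313.BMX (ram)

/-- The conditions on the polynomials: nonzero, the `g k` of even degrees, pairwise coprime over `ℚ`
and coprime to `h`. -/
structure Admissible {K : Type} (b : ℤ) (g : K → ℤ[X]) (h : ℤ[X]) : Prop where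
  b_ne : b ≠ 0
  g_ne : ∀ k, g k ≠ 0
  h_ne : h ≠ 0
  deg : ∀ k, 2 ∣ (g k).natDegree
  coprime : ∀ k l, k ≠ l →
    IsCoprime ((g k).map (Int.castRingHom ℚ)) ((g l).map (Int.castRingHom ℚ))
  coprime_h : ∀ k, IsCoprime (h.map (Int.castRingHom ℚ)) ((g k).map (Int.castRingHom ℚ))

/-- The integers `n k` are squarefree, their product is `b` times a square, and `n k` times the value
of `G k` at the adelic point is a square at all places. -/
def HasClass {K : Type} [Fintype K] [DecidableEq K] {m : ℕ} {b a : ℤ} {g : K → ℤ[X]} {h : ℤ[X]}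
    (P : AdelicPoint m b a g h) (n : K → ℤ) : Prop :=
  (∀ k, Squarefree (n k)) ∧ IsClass 2 b (fun k => (n k : ℚ)) ∧
    (∀ k, IsSquare (value P.re k * (n k : ℝ))) ∧
    ∀ k (p : Nat.Primes), IsSquare (value (P.pa p) k * (n k : ℚ_[(p : ℕ)]))

theorem adm : Admissible 1 exg exh :=
  ⟨one_ne_zero, exg_ne, exh_ne, fun k => by rw [exg_deg k], exg_coprime, exgh_coprime⟩

theorem result :
    (∀ (K : Type) [Fintype K] [DecidableEq K] (b : ℤ) (g : K → ℤ[X]) (h : ℤ[X]),
      Admissible b g h →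
      (∀ (m : ℕ) (a : ℤ) (P : AdelicPoint m b a g h) (k : K) (e : ℤ), e ≠ 0 →
        (ram (values P k) e).Finite) ∧
      (∃ κ : ℝ, 0 < κ ∧ ∃ C : ℝ, ∀ X : ℕ, 3 ≤ X →
        ({a : ℤ | a.natAbs ≤ X ∧ Squarefree a ∧ ∃ m, 2 ≤ m ∧ m ∣ h.natDegree ∧
          ∃ P : AdelicPoint m b a g h, Orthogonal P ∧ ¬ ∃ n : K → ℤ, HasClass P n ∧
            Persistent 2 g h (fun k => (n k : ℚ))}.ncard : ℝ) ≤ C * X * (Real.log X) ^ (-κ)) ∧
      ((∀ δ : K → ℚ, IsClass 2 b δ → ¬ Persistent 2 g h δ) →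
        ∃ κ : ℝ, 0 < κ ∧ ∃ C : ℝ, ∀ X : ℕ, 3 ≤ X →
          ({a : ℤ | a.natAbs ≤ X ∧ Squarefree a ∧ ∃ m, 2 ≤ m ∧ m ∣ h.natDegree ∧
            ∃ P : AdelicPoint m b a g h, Orthogonal P}.ncard : ℝ) ≤
            C * X * (Real.log X) ^ (-κ))) ∧
    Admissible 1 exg exh ∧ (∀ δ, IsClass 2 1 δ → ¬ Persistent 2 exg exh δ) ∧
    (∀ (a : ℤ) (m : ℕ), m ≠ 0 → Nonempty (AdelicPoint m 1 a exg exh)) ∧
    ∃ κ : ℝ, 0 < κ ∧ ∃ C : ℝ, ∀ X : ℕ, 3 ≤ X →
      ({a : ℤ | a.natAbs ≤ X ∧ Squarefree a ∧ ∃ m, 2 ≤ m ∧ m ∣ exh.natDegree ∧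
        ∃ P : AdelicPoint m 1 a exg exh, Orthogonal P}.ncard : ℝ) ≤
        C * X * (Real.log X) ^ (-κ) := by
  classical
  have hfin : ∀ (X : ℕ) (S : Set ℤ), (∀ a ∈ S, a.natAbs ≤ X) → S.Finite := by
    intro X S hS
    apply (Set.finite_Icc (-(X : ℤ)) X).subset
    intro d hd
    have h1 := hS d hd
    rw [Set.mem_Icc]
    omega
  have gen : ∀ (K : Type) [Fintype K] [DecidableEq K] (b : ℤ) (g : K → ℤ[X]) (h : ℤ[X]),
      Admissible b g h →
      (∀ (m : ℕ) (a : ℤ) (P : AdelicPoint m b a g h) (k : K) (e : ℤ), e ≠ 0 →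
        (ram (values P k) e).Finite) ∧
      (∃ κ : ℝ, 0 < κ ∧ ∃ C : ℝ, ∀ X : ℕ, 3 ≤ X →
        ({a : ℤ | a.natAbs ≤ X ∧ Squarefree a ∧ ∃ m, 2 ≤ m ∧ m ∣ h.natDegree ∧
          ∃ P : AdelicPoint m b a g h, Orthogonal P ∧ ¬ ∃ n : K → ℤ, HasClass P n ∧
            Persistent 2 g h (fun k => (n k : ℚ))}.ncard : ℝ) ≤ C * X * (Real.log X) ^ (-κ)) ∧
      ((∀ δ : K → ℚ, IsClass 2 b δ → ¬ Persistent 2 g h δ) →
        ∃ κ : ℝ, 0 < κ ∧ ∃ C : ℝ, ∀ X : ℕ, 3 ≤ X →
          ({a : ℤ | a.natAbs ≤ X ∧ Squarefree a ∧ ∃ m, 2 ≤ m ∧ m ∣ h.natDegree ∧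
            ∃ P : AdelicPoint m b a g h, Orthogonal P}.ncard : ℝ) ≤
            C * X * (Real.log X) ^ (-κ)) := by
    intro K _ _ b g h hA
    obtain ⟨κ, hκ, C, hC⟩ := bm_main hA.b_ne hA.g_ne hA.h_ne hA.deg hA.coprime hA.coprime_h
    refine ⟨fun m a P k e he => ram_finite hA.b_ne hA.g_ne hA.h_ne hA.deg hA.coprime hA.coprime_h
      P k e he, ⟨κ, hκ, C, fun X hX => le_trans ?_ (hC X hX)⟩,
      fun hno => ⟨κ, hκ, C, fun X hX => le_trans ?_ (hC X hX)⟩⟩
    · refine Nat.cast_le.2 (Set.ncard_le_ncard ?_ (hfin X _ fun a ha => ha.1))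
      rintro a ⟨h1, h2, m, hm, hmh, P, hP, hn⟩
      refine ⟨h1, h2, m, hm, hmh, P, hP, ?_⟩
      rintro ⟨n, h3, h4, h5, h6, h7⟩
      exact hn ⟨n, ⟨h3, h4, h6, h7⟩, h5⟩
    · refine Nat.cast_le.2 (Set.ncard_le_ncard ?_ (hfin X _ fun a ha => ha.1))
      rintro a ⟨h1, h2, m, hm, hmh, P, hP⟩
      refine ⟨h1, h2, m, hm, hmh, P, hP, ?_⟩
      rintro ⟨n, h3, h4, h5, h6, h7⟩
      exact hno _ h4 h5
  have hno : ∀ δ, IsClass 2 1 δ → ¬ Persistent 2 exg exh δ :=
    fun δ hδ => ex_not_persistent δ (hδ.1 0)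
  refine ⟨gen, adm, hno, fun a m hm => ?_, (gen _ 1 exg exh adm).2.2 hno⟩
  obtain ⟨zr, wr, xr, yr, h1, h2, h3⟩ := ex_real m hm a
  have hp : ∀ p : Nat.Primes, Nonempty (Point m 1 a exg exh ℚ_[(p : ℕ)]) := by
    intro p
    have : Fact (p : ℕ).Prime := ⟨p.2⟩
    obtain ⟨z, w, x, y, h4, h5, h6⟩ := ex_padic m hm a (p : ℕ)
    exact ⟨⟨z, w, x, y, h4, h5, h6⟩⟩
  exact ⟨⟨⟨zr, wr, xr, yr, h1, h2, h3⟩, fun p => (hp p).some⟩⟩

end Pool.Agent.Results.MP_308fa9_nt.EmptySetsOfTwistedCoverings
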