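import Pool.Agent.R425.D.FamX

/-!
# Finite descent of a uniform level in families, over all Galois 2-extensions

Let `E_1, …, E_n` be elliptic curves over `ℚ` with trivial 2-Selmer groups over `ℚ`, and let `X_t` be a
family of closed subsets of `E_1 × … × E_n`, given by equations over `ℚ` which are polynomials in the
parameters `t = (t_1, …, t_m)`; for instance a family of curves.  Let `U` be a compact set of
parameters over `ℚ_2` such that for `t` in `U` there is no point of `X_t(ℚ_2)` all whose components have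
odd order.

Theorem.  There is ONE level `2 ^ k` such that the `2 ^ k`-Selmer set of `X_t` over `K` is empty for all
number fields `K` and all `t ∈ K ^ m` with the following properties: `K` is a Galois extension of `ℚ` of
degree a power of two (not necessarily abelian, of any degree), ramified only at primes `l` of good
reduction such that the numbers of the points of the `E_i` over `ℤ/l` are odd; the primes dividing the
discriminants and two split completely in `K`, and `K` is totally real if one of the discriminants is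
positive; and `t` is in `U` at ONE place `v` above two (recall that `K_v = ℚ_2`).  So the
Brauer-Manin sets of all these `X_t` over `K` are empty, and this is explained by the coverings of
exponent `2 ^ k`.  Nothing is assumed about Tate-Shafarevich groups.

The case `m = 0` is that of one closed subset `X` over `ℚ` without points of odd order over `ℚ_2`: one
level for all the fields `K`.

Example (second part of the theorem): `E_1 = E_2 = X_0(11)`, in the form
`y² = x³ - 13392 x - 1080432`, and the curves `X_t : x_1 x_2 = t`, which have genus five for almost all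
`t`: one level `2 ^ k` for all the fields `K` and all `t` in `K` which are units at one of the places
above two.

The proof.  By the results on 2-Selmer groups over Galois 2-extensions (`R425/P`, `R425/T`, `Y702`) a
`2 ^ k`-covering over `K` with points over all completions is trivial, so the components at `v` of the
points which lift to it are divisible by `2 ^ k`.  If the theorem were false then by compactness of `U`
and of the `E_i(ℚ_2)` there would be a point on some `X_t(ℚ_2)`, `t ∈ U`, divisible by all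
powers of two, so of odd order.
-/

set_option autoImplicit false

open IsDedekindDomain NumberField WeierstrassCurve MvPolynomial Pool.Agent.TH954

open scoped Classical

namespace Pool.Agent.Results.MP_308fa9_nt.UniformDescentInFamilies

section descent

variable {K : Type} [Field K] {n : ℕ}

/-- The `L`-rational points of the closed subset `X` of `E_1 × … × E_n` defined by the equations in
`S` in the homogeneous coordinates of the `n` points. -/
def LocalPoints (E : Fin n → WeierstrassCurve K) (S : Set (MvPolynomial (Fin n × Fin 3) K))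
    (L : Type) [Field L] [Algebra K L] : Set ((i : Fin n) → ((E i).baseChange L).toAffine.Point) :=
  {P | OnX S (fun i => crd (P i))}

/-- The `L`-rational point `P` of `E_1 × … × E_n` lifts to an `L`-rational point of the `N`-covering
given by the cocycles `ξ i`: there are points `Q i` over the algebraic closure with `N • Q i = P i`
on which the Galois group of `L` acts by translation by the `ξ i`. -/
def Lifts (E : Fin n → WeierstrassCurve K) (N : ℕ)
    (ξ : (i : Fin n) → (AlgebraicClosure K ≃ₐ[K] AlgebraicClosure K) → AlgPt (E i) K)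
    (L : Type) [Field L] [Algebra K L] (P : (i : Fin n) → ((E i).baseChange L).toAffine.Point) :
    Prop :=
  ∃ (ι : AlgebraicClosure K →ₐ[K] AlgebraicClosure L) (Q : (i : Fin n) → AlgPt (E i) L),
    (∀ i, N • Q i = incl (E i) L (P i)) ∧
      ∀ i σ τ, Compat ι σ τ → pm (E i) ι (ξ i τ) = act (E i) σ (Q i) - Q i

/-- The `N`-Selmer set of `X`: the `N`-coverings of `E_1 × … × E_n` over `K` whose pull-backs to `X`
have points over all the completions of `K`. -/
def SelmerSet [NumberField K] (E : Fin n → WeierstrassCurve K)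
    (S : Set (MvPolynomial (Fin n × Fin 3) K)) (N : ℕ) :
    Set ((i : Fin n) → (AlgebraicClosure K ≃ₐ[K] AlgebraicClosure K) → AlgPt (E i) K) :=
  {ξ | (∀ i, IsCocycle (E i) (ξ i)) ∧ (∀ i σ, N • ξ i σ = 0) ∧
    (∀ v : HeightOneSpectrum (𝓞 K), ∃ P ∈ LocalPoints E S (v.adicCompletion K),
      Lifts E N ξ (v.adicCompletion K) P) ∧
    ∀ w : InfinitePlace K, ∃ P ∈ LocalPoints E S w.Completion, Lifts E N ξ w.Completion P}

end descent

/-- The 2-Selmer group of `W` over `ℚ` is trivial: `W(ℚ)` is finite of odd order and `Ш(W/ℚ)` has no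
element of order two. -/
def TrivialTwoSelmer (W : WeierstrassCurve ℤ) : Prop :=
  Finite (W.map (Int.castRingHom ℚ)).toAffine.Point ∧
  Odd (Nat.card (W.map (Int.castRingHom ℚ)).toAffine.Point) ∧
  ∀ s : Pool.Agent.TH841.NF.D.Sha (W.map (Int.castRingHom ℚ)), 2 • s = 0 → s = 0

/-- `W` is an elliptic curve `y² = x³ + a x + b` with integral coefficients. -/
def IsShort (W : WeierstrassCurve ℤ) : Prop := (W.a₁ = 0 ∧ W.a₂ = 0 ∧ W.a₃ = 0) ∧ W.Δ ≠ 0

/-- The number of the points of `W` over `ℤ/l`, with the point at infinity. -/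
noncomputable def pointCount (W : WeierstrassCurve ℤ) (l : ℕ) : ℕ :=
  Nat.card {P : ZMod l × ZMod l //
    (W.map (Int.castRingHom (ZMod l))).toAffine.Equation P.1 P.2} + 1

/-- `K` is a Galois extension of `ℚ` of degree a power of two, ramified only at primes `l ∤ 2 ∏ Δ_i` such
that the numbers of the points of the curves over `ℤ/l` are odd; the prime ideals containing
`2 ∏ Δ_i` have residue degree one (and, `K` being Galois and unramified at them, these primes split
completely); and if one of the discriminants is positive then `K` is totally real. -/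
structure IsTwoExtension {n : ℕ} (W : Fin n → WeierstrassCurve ℤ) (K : Type) [Field K]
    [NumberField K] : Prop where
  galois : IsGalois ℚ K
  degree : ∃ j, Module.finrank ℚ K = 2 ^ j
  ramified : ∀ l : ℕ, l.Prime → (l : ℤ) ∣ NumberField.discr K →
    ¬ (l : ℤ) ∣ 2 * ∏ i, (W i).Δ ∧ ∀ i, Odd (pointCount (W i) l)
  split : ∀ v : HeightOneSpectrum (𝓞 K), ((2 * ∏ i, (W i).Δ : ℤ) : 𝓞 K) ∈ v.asIdeal →
    (Ideal.absNorm v.asIdeal).Prime
  real : ∀ i, 0 < (W i).Δ → ∀ v : InfinitePlace K, v.IsReal

section families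

variable {n m : ℕ}

/-- The polynomial `f` in the coordinates of `n` points of the plane and `m` parameters is homogeneous
of degree `d i` in the coordinates of the `i`-th point. -/
def HomogeneousInPoints (d : Fin n → ℕ) (f : MvPolynomial ((Fin n × Fin 3) ⊕ Fin m) ℚ) : Prop :=
  ∀ e ∈ f.support, ∀ i, ∑ j, e (Sum.inl (i, j)) = d i

/-- The equations over `K` of the member `X_t` of the family given by `S`, for `t ∈ K ^ m`. -/
noncomputable def member (K : Type) [Field K] [Algebra ℚ K]
    (S : Set (MvPolynomial ((Fin n × Fin 3) ⊕ Fin m) ℚ)) (t : Fin m → K) :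
    Set (MvPolynomial (Fin n × Fin 3) K) :=
  {g | ∃ f ∈ S, g = eval₂ (C.comp (algebraMap ℚ K)) (Sum.elim X (fun i => C (t i))) f}

/-- For the parameter `t` over `ℚ_2` there is no point over `ℚ_2` of `X_t` all whose components have
odd order. -/
def NoOddOrderPoint (W : Fin n → WeierstrassCurve ℤ)
    (S : Set (MvPolynomial ((Fin n × Fin 3) ⊕ Fin m) ℚ)) (t : Fin m → ℚ_[2]) : Prop :=
  ∀ P : (i : Fin n) → ((W i).map (Int.castRingHom ℚ_[2])).toAffine.Point,
    (∀ f ∈ S, eval₂ (algebraMap ℚ ℚ_[2]) (Sum.elim (fun p => crd (P p.1) p.2) t) f = 0) →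
      ∃ i, ∀ m : ℕ, Odd m → m • P i ≠ 0

end families

/-- The curve `y² = x³ - 13392 x - 1080432`, a short equation of `X_0(11)`. -/
def X11 : WeierstrassCurve ℤ := ⟨0, 0, 0, -13392, -1080432⟩

/-- `Y_i² + 13392 X_i Z_i + 1080432 Z_i²`; on `X_0(11)` one has `(X : Z) = (this : X²)`. -/
noncomputable def q (i : Fin 2) : MvPolynomial ((Fin 2 × Fin 3) ⊕ Fin 1) ℚ :=
  X (Sum.inl (i, 1)) ^ 2 + C 13392 * (X (Sum.inl (i, 0)) * X (Sum.inl (i, 2))) +
    C 1080432 * X (Sum.inl (i, 2)) ^ 2

/-- The equations of the curves `x_1 x_2 = t` on the square of `X_0(11)`, where `x_i = ∞` at the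
origin; each of the two coordinates `x_i` is written as `X_i / Z_i` or as `q i / X_i²`. -/
noncomputable def exampleEqs : Set (MvPolynomial ((Fin 2 × Fin 3) ⊕ Fin 1) ℚ) :=
  {X (Sum.inl (0, 0)) * X (Sum.inl (1, 0)) -
      X (Sum.inr 0) * (X (Sum.inl (0, 2)) * X (Sum.inl (1, 2))),
    q 0 * X (Sum.inl (1, 0)) - X (Sum.inr 0) * (X (Sum.inl (0, 0)) ^ 2 * X (Sum.inl (1, 2))),
    X (Sum.inl (0, 0)) * q 1 - X (Sum.inr 0) * (X (Sum.inl (0, 2)) * X (Sum.inl (1, 0)) ^ 2),
    q 0 * q 1 - X (Sum.inr 0) * (X (Sum.inl (0, 0)) ^ 2 * X (Sum.inl (1, 0)) ^ 2)}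

section

variable {K : Type} [Field K] [NumberField K] {n : ℕ}

lemma sel_iff (E : Fin n → WeierstrassCurve K) (S : Set (MvPolynomial (Fin n × Fin 3) K)) (N : ℕ) :
    SelmerSet E S N = Pool.Agent.R425.D.SelSet E S N := by
  ext ξ
  have key : ∀ (L : Type) [Field L] [Algebra K L],
      (∃ P ∈ LocalPoints E S L, Lifts E N ξ L P) ↔ Pool.Agent.R425.D.CovPt E S N ξ L := by
    intro L _ _
    constructor
    · rintro ⟨P, hP, ι, Q, h1, h2⟩
      exact ⟨ι, P, Q, hP, h1, h2⟩
    · rintro ⟨ι, P, Q, hP, h1, h2⟩
      exact ⟨P, hP, ι, Q, h1, h2⟩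
  constructor
  · rintro ⟨h1, h2, h3, h4⟩
    exact ⟨h1, h2, fun v => (key _).1 (h3 v), fun w => (key _).1 (h4 w)⟩
  · rintro ⟨h1, h2, h3, h4⟩
    exact ⟨h1, h2, fun v => (key _).2 (h3 v), fun w => (key _).2 (h4 w)⟩

lemma ext_of {W : Fin n → WeierstrassCurve ℤ} (h : IsTwoExtension W K) :
    Pool.Agent.R425.D.TwoExt W K :=
  ⟨h.galois, h.degree, h.ramified, h.split, h.real⟩

end

lemma example_eq : exampleEqs = Pool.Agent.R425.D.exF := by
  unfold exampleEqs Pool.Agent.R425.D.exF q Pool.Agent.R425.D.qf
  simp only [pow_one]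

theorem result :
    (∀ (n m : ℕ) (W : Fin n → WeierstrassCurve ℤ), (∀ i, IsShort (W i)) →
      (∀ i, TrivialTwoSelmer (W i)) →
      ∀ S : Set (MvPolynomial ((Fin n × Fin 3) ⊕ Fin m) ℚ),
      (∀ f ∈ S, ∃ d, HomogeneousInPoints d f) →
      ∀ U : Set (Fin m → ℚ_[2]), IsCompact U → (∀ t ∈ U, NoOddOrderPoint W S t) →
      ∃ k : ℕ, ∀ (K : Type) [Field K] [NumberField K], IsTwoExtension W K →
        ∀ (v : HeightOneSpectrum (𝓞 K)) (e : v.adicCompletion K ≃+* ℚ_[2]) (t : Fin m → K),
        (fun i => e (algebraMap K (v.adicCompletion K) (t i))) ∈ U →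
        SelmerSet (fun i => (W i).map (Int.castRingHom K)) (member K S t) (2 ^ k) = ∅) ∧
    (∀ (n : ℕ) (W : Fin n → WeierstrassCurve ℤ), (∀ i, (W i).Δ ≠ 0) →
      ∀ (K : Type) [Field K] [NumberField K], IsTwoExtension W K →
        ∀ v : HeightOneSpectrum (𝓞 K), ((2 : ℕ) : 𝓞 K) ∈ v.asIdeal →
          Nonempty (v.adicCompletion K ≃+* ℚ_[2])) ∧
    (IsShort X11 ∧ TrivialTwoSelmer X11 ∧ (∀ f ∈ exampleEqs, ∃ d, HomogeneousInPoints d f) ∧
      IsCompact {t : Fin 1 → ℚ_[2] | ‖t 0‖ = 1} ∧
      ∀ t : Fin 1 → ℚ_[2], ‖t 0‖ = 1 → NoOddOrderPoint (fun _ : Fin 2 => X11) exampleEqs t) := by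
  refine ⟨?_, ?_, ?_, ?_, ?_, ?_, ?_⟩
  · intro n m W hW hT S hS U hU hno
    obtain ⟨k, hk⟩ := Pool.Agent.R425.D.thmB (fun i => (hW i).1) (fun i => (hW i).2) hT S hS U hU
      (fun t ht P hP => hno t ht P hP)
    refine ⟨k, fun K _ _ hK v e t ht => ?_⟩
    rw [sel_iff]
    exact hk K (ext_of hK) v e t ht
  · intro n W hΔ K _ _ hK v hv
    obtain ⟨h1, h2⟩ := (ext_of hK).two hΔ v hv
    obtain ⟨e⟩ := Pool.Agent.R425.D.split_iso v h1 h2
    exact ⟨e.symm⟩
  · exact ⟨⟨rfl, rfl, rfl⟩, Pool.Agent.R425.D.disc11⟩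
  · exact Pool.Agent.R425.D.sel11s
  · rw [example_eq]
    exact Pool.Agent.R425.D.exF_ph
  · exact Pool.Agent.R425.D.compact_units
  · intro t ht
    rw [example_eq]
    intro P hP
    exact Pool.Agent.R425.D.exF_free t ht P hP

end Pool.Agent.Results.MP_308fa9_nt.UniformDescentInFamilies
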